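import Pool.Agent.W822.ResVar

set_option autoImplicit false

open MeasureTheory ProbabilityTheory

namespace Pool.Agent.Results.MP_eba68f_pr.DirectionDependent

open Pool.Agent.W822.FPP

/-- The variance exponent of first-passage percolation on `ℤ²` depends on the direction: for some
law `F` on `[0,∞)` with finite second moment it is `0` in the direction `(1,1)/√2` and at least
`1/50` in another direction. -/
theorem result : ∃ F : Measure ℝ, IsProbabilityMeasure F ∧ F (Set.Iio 0) = 0 ∧
    Integrable (fun t => t ^ 2) F ∧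
    chiVar F (Real.sqrt 2 / 2, Real.sqrt 2 / 2) = 0 ∧
    ∃ y : ℝ × ℝ, y.1 ^ 2 + y.2 ^ 2 = 1 ∧ ((1 / 50 : ℝ) : EReal) ≤ chiVar F y :=
  final_var

end Pool.Agent.Results.MP_eba68f_pr.DirectionDependent
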